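import Mathlib
import Pool.Agent.H39R3.PB.Basic

/-!
# Palindromes in base `b`: from leading digit 1 to all palindromes (task T9 of project H39-PAL)

Port by helper181 of `Pool.Agent.H187R2.PalT10`, `Pool.Agent.H861R2.Pal.T11`,
`Pool.Agent.H861R2.Pal.T12` and `Pool.Agent.H459R2.PalQ6` from base 10 to base `b`.
-/

set_option autoImplicit false

namespace Pool.Agent.H181R5.PBT9

open Finset Filter Topology Pool.Agent.H39R3.PB

variable {b : ℕ}

theorem ofDigits_map_range (b : ℕ) (g : ℕ → ℕ) (n : ℕ) :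
    Nat.ofDigits b ((List.range n).map g) = ∑ i ∈ range n, g i * b ^ i := by
  induction n with
  | zero => simp
  | succ n ih =>
    rw [List.range_succ, List.map_append, Nat.ofDigits_append, ih, sum_range_succ]
    simp [mul_comm]

/-- palindromes with exactly `2 L + 1` digits in base `b` -/
def palin (b L : ℕ) : Finset ℕ :=
  (range (b ^ (2 * L + 1))).filter (fun n => b ^ (2 * L) ≤ n ∧
    (Nat.digits b n).reverse = Nat.digits b n)

/-- palindrome with leading digit `l` -/
def pvl (b l L : ℕ) (m : Fin L → Fin b) : ℕ :=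
  l * (b ^ (2 * L) + 1) + ∑ c : Fin L, (m c : ℕ) * fr b L c

/-- the digits as a function of the distance to the middle -/
def dgl (b l L : ℕ) (m : Fin L → Fin b) (c : ℕ) : ℕ := if h : c < L then (m ⟨c, h⟩ : ℕ) else l

theorem dgl_lt {l : ℕ} (hl : l < b) (L : ℕ) (m : Fin L → Fin b) (c : ℕ) : dgl b l L m c < b := by
  unfold dgl
  split_ifs with h
  · exact (m ⟨c, h⟩).2
  · exact hl

theorem dgl_L (l L : ℕ) (m : Fin L → Fin b) : dgl b l L m L = l := by simp [dgl]

theorem pvl_eq (l L : ℕ) (hL : 1 ≤ L) (m : Fin L → Fin b) :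
    pvl b l L m = ∑ i ∈ range (2 * L + 1), dgl b l L m (Nat.dist i L) * b ^ i := by
  have h1 : ∑ c : Fin L, (m c : ℕ) * fr b L c = ∑ c ∈ range L, dgl b l L m c * fr b L c := by
    rw [← Fin.sum_univ_eq_sum_range (fun c => dgl b l L m c * fr b L c) L]
    apply sum_congr rfl
    intro c _
    simp [dgl, c.2]
  have h2 : l * (b ^ (2 * L) + 1) = dgl b l L m L * fr b L L := by
    rw [dgl_L, fr, if_neg (by omega), Nat.sub_self, pow_zero]
    congr 3; ring
  have h3 : pvl b l L m = ∑ c ∈ range (L + 1), dgl b l L m c * fr b L c := by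
    rw [sum_range_succ, ← h2, pvl, h1]; ring
  have h4 : pvl b l L m = dgl b l L m 0 * b ^ L + (∑ c ∈ range L, dgl b l L m (c + 1) * b ^ (L + 1 + c) +
      ∑ c ∈ range L, dgl b l L m (c + 1) * b ^ (L - (c + 1))) := by
    rw [h3, sum_range_succ', ← sum_add_distrib, add_comm]
    congr 1
    apply sum_congr rfl
    intro c _
    rw [fr, if_neg (by omega), mul_add]
    congr 3; ring
  have h5 : ∑ c ∈ range L, dgl b l L m (c + 1) * b ^ (L - (c + 1)) =
      ∑ i ∈ range L, dgl b l L m (Nat.dist i L) * b ^ i := by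
    rw [← sum_range_reflect (fun i => dgl b l L m (Nat.dist i L) * b ^ i)]
    apply sum_congr rfl
    intro c hc
    rw [mem_range] at hc
    have e1 : L - 1 - c = L - (c + 1) := by omega
    have e2 : Nat.dist (L - 1 - c) L = c + 1 := by
      rw [Nat.dist_eq_sub_of_le (by omega)]; omega
    rw [e2, e1]
  rw [show 2 * L + 1 = L + (L + 1) by ring, sum_range_add, h4, h5, add_comm (∑ c ∈ range L, _) _,
    add_left_comm]
  congr 1
  rw [sum_range_succ', add_comm]
  congr 1
  · apply sum_congr rfl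
    intro c _
    have e2 : Nat.dist (L + (c + 1)) L = c + 1 := by
      rw [Nat.dist_eq_sub_of_le_right (by omega)]; omega
    rw [e2]
    congr 2; ring
  · simp

/-- the list of digits -/
def lst (b l L : ℕ) (m : Fin L → Fin b) : List ℕ :=
  (List.range (2 * L + 1)).map (fun i => dgl b l L m (Nat.dist i L))

theorem lst_length (l L : ℕ) (m : Fin L → Fin b) : (lst b l L m).length = 2 * L + 1 := by
  simp [lst]

theorem lst_getElem (l L : ℕ) (m : Fin L → Fin b) (i : ℕ) (h : i < (lst b l L m).length) :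
    (lst b l L m)[i] = dgl b l L m (Nat.dist i L) := by
  simp [lst]

theorem pvl_ofDigits (l L : ℕ) (hL : 1 ≤ L) (m : Fin L → Fin b) :
    pvl b l L m = Nat.ofDigits b (lst b l L m) := by
  rw [pvl_eq l L hL, lst, ofDigits_map_range]

theorem lst_lt {l : ℕ} (hl : l < b) (L : ℕ) (m : Fin L → Fin b) : ∀ x ∈ lst b l L m, x < b := by
  intro x hx
  rw [lst, List.mem_map] at hx
  obtain ⟨i, _, rfl⟩ := hx
  exact dgl_lt hl _ _ _

theorem lst_reverse (l L : ℕ) (m : Fin L → Fin b) : (lst b l L m).reverse = lst b l L m := by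
  unfold lst
  apply List.ext_getElem
  · simp
  · intro i h1 h2
    have h3 : i < 2 * L + 1 := by simpa using h2
    rw [List.getElem_reverse]
    simp only [List.getElem_map, List.getElem_range, List.length_map, List.length_range]
    congr 1
    unfold Nat.dist
    omega

theorem digits_pvl (hb : 2 ≤ b) {l : ℕ} (h1 : 1 ≤ l) (h9 : l < b) (L : ℕ) (hL : 1 ≤ L)
    (m : Fin L → Fin b) : Nat.digits b (pvl b l L m) = lst b l L m := by
  rw [pvl_ofDigits l L hL, Nat.digits_ofDigits b (by omega) _ (lst_lt h9 L m)]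
  intro hne
  rw [List.getLast_eq_getElem, lst_getElem, lst_length]
  have : Nat.dist (2 * L + 1 - 1) L = L := by
    rw [Nat.dist_eq_sub_of_le_right (by omega)]; omega
  rw [this, dgl_L]
  omega

theorem pvl_inj (hb : 2 ≤ b) (L : ℕ) (hL : 1 ≤ L) :
    Set.InjOn (fun x : ℕ × (Fin L → Fin b) => pvl b x.1 L x.2) {x | x.1 < b} := by
  rintro ⟨l, m⟩ hl ⟨l', m'⟩ hl' h
  change l < b at hl
  change l' < b at hl'
  have h0 : Nat.ofDigits b (lst b l L m) = Nat.ofDigits b (lst b l' L m') := by
    rw [← pvl_ofDigits l L hL, ← pvl_ofDigits l' L hL]; exact h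
  have h1 : lst b l L m = lst b l' L m' :=
    Nat.ofDigits_inj_of_len_eq (by omega) (by simp [lst]) (lst_lt hl L m) (lst_lt hl' L m') h0
  have h2 := List.map_inj_left.1 h1
  refine Prod.ext ?_ (funext fun c => ?_)
  · have h3 := h2 (2 * L) (by rw [List.mem_range]; omega)
    have h4 : Nat.dist (2 * L) L = L := by
      rw [Nat.dist_eq_sub_of_le_right (by omega)]; omega
    rw [h4, dgl_L, dgl_L] at h3
    exact h3
  · have hc := c.2
    have h3 := h2 (L + c) (by rw [List.mem_range]; omega)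
    have h4 : Nat.dist (L + c) L = c := by
      rw [Nat.dist_eq_sub_of_le_right (by omega)]; omega
    rw [h4] at h3
    simp only [dgl, hc, dif_pos] at h3
    exact Fin.ext h3

/-- all palindromes with `2L+1` digits -/
theorem palin_eq (hb : 2 ≤ b) (L : ℕ) (hL : 1 ≤ L) :
    palin b L = ((Icc 1 (b - 1)) ×ˢ (univ : Finset (Fin L → Fin b))).image
      (fun x => pvl b x.1 L x.2) := by
  ext n
  rw [palin, mem_filter, mem_range, mem_image]
  constructor
  · rintro ⟨hn1, hn2, hrev⟩
    have hn0 : n ≠ 0 := by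
      have : 0 < b ^ (2 * L) := by positivity
      omega
    have hlen : (Nat.digits b n).length = 2 * L + 1 := by
      apply le_antisymm
      · exact (Nat.digits_length_le_iff (by omega) n).2 hn1
      · have := (Nat.lt_digits_length_iff (b := b) (by omega) n (k := 2 * L)).2 hn2
        omega
    set D := Nat.digits b n with hD
    have hlt : ∀ i, (h : i < D.length) → D[i] < b := fun i h =>
      Nat.digits_lt_base (by omega) (List.getElem_mem h)
    have hpal : ∀ i, (h : i < 2 * L + 1) →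
        D[2 * L - i]'(by rw [hlen]; omega) = D[i]'(by rw [hlen]; omega) := by
      intro i h
      have h1 : i < D.reverse.length := by rw [List.length_reverse, hlen]; omega
      have h2 : D.reverse[i] = D[i]'(by rw [hlen]; omega) := by
        congr 1
      rw [← h2, List.getElem_reverse]
      congr 1
      rw [hlen]
      omega
    refine ⟨(D[2 * L]'(by rw [hlen]; omega), fun c => ⟨D[L + c]'(by rw [hlen]; omega), hlt _ _⟩),
      ?_, ?_⟩
    · rw [mem_product, mem_Icc]
      refine ⟨⟨?_, ?_⟩, mem_univ _⟩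
      · have h1 := Nat.getLast_digit_ne_zero b hn0
        rw [List.getLast_eq_getElem] at h1
        have h2 : D[2 * L]'(by rw [hlen]; omega) ≠ 0 := by
          have e : (Nat.digits b n).length - 1 = 2 * L := by rw [← hD, hlen]; omega
          intro h0
          refine h1 (Eq.trans ?_ h0)
          congr 1
        show 1 ≤ D[2 * L]'(by rw [hlen]; omega)
        omega
      · have := hlt (2 * L) (by rw [hlen]; omega)
        show D[2 * L]'(by rw [hlen]; omega) ≤ b - 1
        omega
    · show pvl b _ L _ = n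
      rw [pvl_ofDigits _ L hL, ← Nat.ofDigits_digits b n, ← hD]
      congr 1
      apply List.ext_getElem
      · rw [lst, List.length_map, List.length_range, hlen]
      · intro i h1 h2
        have h3 : i < 2 * L + 1 := by rw [← hlen]; exact h2
        rw [lst_getElem]
        unfold dgl
        split_ifs with hc
        · show D[L + Nat.dist i L]'_ = D[i]
          rcases le_total L i with h4 | h4
          · congr 1
            rw [Nat.dist_eq_sub_of_le_right h4]; omega
          · rw [← hpal i h3]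
            congr 1
            rw [Nat.dist_eq_sub_of_le h4]; omega
        · rcases le_total L i with h4 | h4
          · rw [Nat.dist_eq_sub_of_le_right h4] at hc
            have hi : i = 2 * L := by omega
            subst hi
            rfl
          · rw [Nat.dist_eq_sub_of_le h4] at hc
            have hi : i = 0 := by omega
            subst hi
            rw [← hpal 0 (by omega)]
            congr 1
  · rintro ⟨⟨l, m⟩, hx, rfl⟩
    rw [mem_product, mem_Icc] at hx
    obtain ⟨⟨h1, h9⟩, _⟩ := hx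
    simp only at h1 h9
    have h9' : l < b := by omega
    refine ⟨?_, ?_, ?_⟩
    · have h := Nat.lt_base_pow_length_digits (b := b) (m := pvl b l L m) (by omega)
      rw [digits_pvl hb h1 h9' L hL, lst, List.length_map, List.length_range] at h
      exact h
    · show b ^ (2 * L) ≤ pvl b l L m
      unfold pvl
      have : 1 * (b ^ (2 * L) + 1) ≤ l * (b ^ (2 * L) + 1) := Nat.mul_le_mul_right _ h1
      omega
    · show (Nat.digits b (pvl b l L m)).reverse = Nat.digits b (pvl b l L m)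
      rw [digits_pvl hb h1 h9' L hL, lst_reverse]

theorem modEq_shift {q x y h : ℕ} (hq : 1 ≤ q) : x + y ≡ h [MOD q] ↔ x ≡ h + (q - 1) * y [MOD q] := by
  have h1 : y + (q - 1) * y = q * y := by
    obtain ⟨k, rfl⟩ := Nat.exists_eq_add_of_le hq
    rw [Nat.add_sub_cancel_left]; ring
  have h2 : x + q * y ≡ x [MOD q] := by
    exact Nat.ModEq.add_left x (Nat.modEq_zero_iff_dvd.2 (Dvd.intro y rfl) : q * y ≡ 0 [MOD q])
  constructor
  · intro hx
    have h3 := Nat.ModEq.add_right ((q - 1) * y) hx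
    rw [add_assoc, h1] at h3
    exact h2.symm.trans h3
  · intro hx
    have h3 := Nat.ModEq.add_right y hx
    rw [add_assoc, add_comm ((q - 1) * y) y, h1] at h3
    refine h3.trans ?_
    exact Nat.ModEq.add_left h (Nat.modEq_zero_iff_dvd.2 (Dvd.intro y rfl) : q * y ≡ 0 [MOD q])

theorem pvl_pv {l : ℕ} (hl : 1 ≤ l) (L : ℕ) (m : Fin L → Fin b) :
    pvl b l L m = pv b L m + (l - 1) * (b ^ (2 * L) + 1) := by
  obtain ⟨k, rfl⟩ := Nat.exists_eq_add_of_le hl
  rw [pvl, pv, Nat.add_sub_cancel_left]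
  ring

theorem card_eq (hb : 2 ≤ b) (L : ℕ) (hL : 1 ≤ L) (q h : ℕ) (hq : 1 ≤ q) :
    (((palin b L).filter (fun n => n ≡ h [MOD q])).card : ℝ)
      = ∑ l ∈ Icc 1 (b - 1), cnt b L q (h + (q - 1) * ((l - 1) * (b ^ (2 * L) + 1))) := by
  rw [palin_eq hb L hL, filter_image, card_image_of_injOn]
  · rw [card_filter, sum_product, Nat.cast_sum]
    apply sum_congr rfl
    intro l hl
    rw [mem_Icc] at hl
    rw [← card_filter, cnt]
    congr 2
    apply filter_congr
    intro m _
    rw [pvl_pv hl.1, modEq_shift hq]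
  · intro x hx y hy hxy
    rw [mem_coe, mem_filter, mem_product, mem_Icc] at hx hy
    have hx1 := hx.1.1.2
    have hy1 := hy.1.1.2
    exact pvl_inj hb L hL (show x.1 < b by omega) (show y.1 < b by omega) hxy

/-- general form: any level `D L` -/
theorem BV_all_gen (hb : 2 ≤ b) (D : ℕ → ℕ) (hBV : ∀ A : ℕ, ∀ᶠ L : ℕ in atTop, ∀ h : ℕ → ℕ,
      ∑ q ∈ (Icc 1 (D L)).filter (fun q => q.Coprime (2 * b)),
        (q.divisors.card : ℝ) ^ 2 * |cnt b L q (h q) - (b : ℝ) ^ L / q| ≤ (b : ℝ) ^ L / (L : ℝ) ^ A)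
    (A : ℕ) : ∀ᶠ L : ℕ in atTop, ∀ h : ℕ → ℕ,
    ∑ q ∈ (Icc 1 (D L)).filter (fun q => q.Coprime (2 * b)),
      |(((palin b L).filter (fun n => n ≡ h q [MOD q])).card : ℝ) - ((b : ℝ) - 1) * (b : ℝ) ^ L / q| ≤
        (b : ℝ) ^ L / (L : ℝ) ^ A := by
  have hbR : (2 : ℝ) ≤ b := by exact_mod_cast hb
  have hcast : ((b - 1 : ℕ) : ℝ) = (b : ℝ) - 1 := by
    rw [Nat.cast_sub (by omega)]; norm_num
  filter_upwards [hBV (A + 1), eventually_ge_atTop b] with L hL hL9 h
  have hL9' : (b : ℝ) ≤ L := by exact_mod_cast hL9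
  have hL0 : (0 : ℝ) < L := by linarith
  have h1 : ∀ q ∈ (Icc 1 (D L)).filter (fun q => q.Coprime (2 * b)),
      |(((palin b L).filter (fun n => n ≡ h q [MOD q])).card : ℝ) - ((b : ℝ) - 1) * (b : ℝ) ^ L / q|
        ≤ ∑ l ∈ Icc 1 (b - 1), (q.divisors.card : ℝ) ^ 2 *
          |cnt b L q (h q + (q - 1) * ((l - 1) * (b ^ (2 * L) + 1))) - (b : ℝ) ^ L / q| := by
    intro q hq
    rw [mem_filter, mem_Icc] at hq
    rw [card_eq hb L (by omega) q (h q) hq.1.1]
    have h2 : ((b : ℝ) - 1) * (b : ℝ) ^ L / q = ∑ _l ∈ Icc 1 (b - 1), (b : ℝ) ^ L / q := by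
      rw [sum_const, Nat.card_Icc, nsmul_eq_mul, Nat.add_sub_cancel, hcast]
      ring
    rw [h2, ← sum_sub_distrib]
    refine (abs_sum_le_sum_abs _ _).trans ?_
    apply sum_le_sum
    intro l _
    have h3 : (1 : ℝ) ≤ (q.divisors.card : ℝ) ^ 2 := by
      have h4 : 1 ≤ q.divisors.card := Finset.card_pos.2 ⟨1, by
        rw [Nat.mem_divisors]; exact ⟨one_dvd _, by omega⟩⟩
      have h5 : (1 : ℝ) ≤ q.divisors.card := by exact_mod_cast h4
      nlinarith
    exact le_mul_of_one_le_left (abs_nonneg _) h3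
  refine (sum_le_sum h1).trans ?_
  rw [sum_comm]
  calc ∑ l ∈ Icc 1 (b - 1), ∑ q ∈ (Icc 1 (D L)).filter (fun q => q.Coprime (2 * b)),
        (q.divisors.card : ℝ) ^ 2 *
          |cnt b L q (h q + (q - 1) * ((l - 1) * (b ^ (2 * L) + 1))) - (b : ℝ) ^ L / q|
      ≤ ∑ _l ∈ Icc 1 (b - 1), (b : ℝ) ^ L / (L : ℝ) ^ (A + 1) :=
        sum_le_sum fun l _ => hL (fun q => h q + (q - 1) * ((l - 1) * (b ^ (2 * L) + 1)))
    _ = ((b : ℝ) - 1) * ((b : ℝ) ^ L / (L : ℝ) ^ (A + 1)) := by
        rw [sum_const, Nat.card_Icc, nsmul_eq_mul, Nat.add_sub_cancel, hcast]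
    _ ≤ (b : ℝ) ^ L / (L : ℝ) ^ A := by
        rw [pow_succ, ← mul_div_assoc, div_le_div_iff₀ (by positivity) (by positivity)]
        have : ((b : ℝ) - 1) * ((b : ℝ) ^ L * (L : ℝ) ^ A) ≤ L * ((b : ℝ) ^ L * (L : ℝ) ^ A) :=
          mul_le_mul_of_nonneg_right (by linarith) (by positivity)
        linarith

/-- Task T9. -/
theorem taskT9 : TaskT9 := by
  intro b hb hBV ε hε A
  filter_upwards [BV_all_gen hb (fun L => ⌊(b : ℝ) ^ ((1 / 2 - ε) * L)⌋₊) (hBV ε hε) A] with L hL h
  refine le_trans (le_of_eq ?_) (hL h)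
  refine sum_congr rfl fun q _ => ?_
  have e : (range (b ^ (2 * L + 1))).filter (fun n => b ^ (2 * L) ≤ n ∧
      (Nat.digits b n).reverse = Nat.digits b n ∧ n ≡ h q [MOD q]) =
      (palin b L).filter (fun n => n ≡ h q [MOD q]) := by
    unfold palin
    rw [filter_filter]
    refine filter_congr fun n _ => ?_
    constructor
    · rintro ⟨h1, h2, h3⟩; exact ⟨⟨h1, h2⟩, h3⟩
    · rintro ⟨⟨h1, h2⟩, h3⟩; exact ⟨h1, h2, h3⟩
  rw [e]

end Pool.Agent.H181R5.PBT9
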